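import Pool.Agent.W547.UB.Crys

/-!
# The crystalline Tate conjecture for ordinary abelian varieties in independent blocks

Let `A₀` be an ordinary abelian variety over the field with `q = p ^ a` elements, isogenous (after a
finite extension of the base field) to a product of any number of absolutely simple abelian varieties
`A₀ i` with complex multiplication by CM fields `E i` containing their Frobenius endomorphisms `π i`.
Its canonical lift is isogenous to the product `X` of the abelian varieties `A i` with complex
multiplication by `E i` and the CM types `Φ i` given by the embeddings `φ` for which `φ (π i)` has
slope one. 
The factors are divided into blocks (the block of the factor `A i` is `b i`), such that for each block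
there is an automorphism of the field of complex numbers that acts as the complex conjugation on all
embeddings of the CM fields in this block and trivially on all embeddings of the CM fields in the
other blocks (the intersection of the Galois closure of the fields of the block with the compositum of
the Galois closures of the other fields is totally real; for one block this is no condition). Each
block is of one of the following kinds:

* its factors have dimension at most three, and any two of them whose CM fields have the same Galois
  closure over `ℚ` have isomorphic CM types, unless these CM fields are Galois over `ℚ`;
* its factors are factors (up to isogeny) of one abelian variety of CM type of dimension at most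
  five, each with any multiplicity;
* its factors have the same CM type, with a CM field of degree at most fourteen;
* its factors are factors (up to isogeny) of one nondegenerate abelian variety of CM type, of
  arbitrary dimension, each with any multiplicity.

For example `X` may be any power of any abelian variety of CM type of dimension at most five, or any
power of a simple abelian variety of CM type of dimension at most seven, or a product of such powers
for which the Galois closures of the CM fields are linearly disjoint. The conditions hold for all
powers of `X` if they hold for `X`.

Let `K₀` be the fraction field of the ring of Witt vectors of the field with `Q = q ^ s` elements, let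
`V₀` be the dual space of the first crystalline cohomology group of `A₀` with coefficients in `K₀`,
with its linear Frobenius endomorphism `F`, and let `K` be the field of complex numbers, isomorphic to
an algebraic closure of the field of `p`-adic numbers and an extension of `K₀`. (The theorem holds for
all fields `K₀` of characteristic zero and all extensions `K`.) By the comparison theorem of
Berthelot and Ogus and the comparison of de Rham and singular cohomology, `K ⊗ V₀` is identified with
`K ⊗ H_1(X, ℚ)`, and `F` is the multiplication by `π = (π i)`.

Let `A ⊆ H^{2m}(A₀, K₀)` be the space spanned by the classes of algebraic cycles of codimension `m` on
`A₀` over the field with `Q` elements. Of this space the theorem uses only that for each class `g` on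
`X` in the ring generated by the classes of divisors on `X` and by the pull-backs, along homomorphisms
`X → Y`, of the Weil classes of imaginary quadratic fields on abelian fourfolds and sixfolds `Y` of CM
type and of split Weil type, such that `g` is multiplied by `Q ^ m` by the Frobenius endomorphism
`π ^ s`, there is a class in `A` which agrees with `g`. (By theorems of Lefschetz and Markman `g` is
algebraic; the cycle specializes to a cycle on `A₀`, defined over a finite extension; the average of
its conjugates has the same class.)

Then each class `f` in the crystalline cohomology group `H^{2m}(A₀, K₀)` which is multiplied by
`Q ^ m` by the linear Frobenius endomorphism belongs to `A`.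
-/

namespace Pool.Agent.Results.MP_60ec62_ag.CrystallineBlocks

open Pool.Agent.W547.KB Pool.Agent.W547.LD Pool.Agent.W530.NF Pool.Agent.W547.LN
open Pool.Agent.W547.DP Pool.Agent.W547.UB
open scoped TensorProduct

/-- `X` is the canonical lift of an ordinary abelian variety `A₀` over the field with `q = p ^ a`
elements, in independent blocks, `V₀` is the dual of the first crystalline cohomology group, `F` its
linear Frobenius endomorphism: the space `A` of classes of cycles contains all Tate classes `f`. -/
theorem result (p : ℕ) [Fact p.Prime] (a : ℕ) (ha : 0 < a) (ν : PadicAlgCl p ≃+* ℂ)
    (X : CMAV) {J : Type} (b : X.I → J) (hX : IndependentBlocks X b)
    (π : X.H1) (hπ : IsCanonicalLift p a ν X π)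
    {K₀ K V₀ : Type} [Field K₀] [CharZero K₀] [Field K] [Algebra K₀ K] [AddCommGroup V₀]
    [Module K₀ V₀] [FiniteDimensional K₀ V₀] (C : Comparison X K (K ⊗[K₀] V₀))
    (F : V₀ →ₗ[K₀] V₀) (hF : IsFrobeniusMap C π (F.baseChange K)) (s : ℕ) (hs : 0 < s) {m : ℕ}
    (A : Submodule K₀ (V₀ [⋀^Fin (2 * m)]→ₗ[K₀] K₀))
    (hA : ContainsRing C (π ^ s) ((p ^ a) ^ s) A) (f : V₀ [⋀^Fin (2 * m)]→ₗ[K₀] K₀)
    (hf : IsTateForm (F ^ s) ((p ^ a) ^ s) f) : f ∈ A :=
  crystalline p a ha ν X b hX π hπ C F hF s hs A hA f hf

end Pool.Agent.Results.MP_60ec62_ag.CrystallineBlocks
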